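import Pool.Agent.Y813.NW.Fin

/-!
# Nahm's conjecture, direction `torsion in the Bloch group implies modularity`: no weight, no
# multiplier system

There is a positive definite symmetric rational matrix `A` (the matrix of rank 13 of the starting
files) for which `ξ_x` is torsion for all solutions `x` of Nahm's equations, but for all rational
`B`, `C` the function `f_{A,B,C}` is not a modular form of any real weight, with any multiplier
system, for any subgroup of finite index of `SL(2, ℤ)`: even the absolute value of `f_{A,B,C}` does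
not transform like the absolute value of a modular form of some real weight `w`.

Proof. If `|f|` transforms with weight `w`, then `z^{-w} f(-1/z)` is periodic up to a constant of
absolute value one (maximum principle), so `f` has at the cusp `0` an expansion
`(2πi/ε)^w e^{-4π²κ/(Nε)} X^n G(X)`, `X = e^{-4π²/(Nε)}`, with an unknown real `κ`. The asymptotics on
the real axis, `log |f| = 13π²/(12ε) + O(1)`, force `w = 0` and the exponent, and the
remaining steps of the starting files apply.
-/

namespace Pool.Agent.Results.MP_5c0a0e_nt.NoWeight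

open Pool.Agent.TH825.Nahm
open scoped UpperHalfPlane MatrixGroups

/-- There is a positive definite symmetric rational matrix `A` (of size `13`) such that for every
solution `x` of Nahm's equations `ξ_x` lies in `G(F)`, `F = ℚ(x_1, …, x_13)`, and a positive
multiple of `ξ_x` lies in the subgroup generated by the elements `[x] + [1-x]` and the five-term
elements (so its class in the Bloch group is torsion), but for all rational `B`, `C`, all real
weights `w` and all subgroups `Γ` of finite index of `SL(2, ℤ)` the (absolutely convergent) series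
`f = f_{A,B,C}` violates `|f(γτ)| = |cτ + d|^w |f(τ)|` for some `γ ∈ Γ` and some `τ`. -/
theorem result : ∃ A : Matrix (Fin 13) (Fin 13) ℚ,
    (A.map (fun q : ℚ => (q : ℝ))).PosDef ∧
    (∀ (x : Fin 13 → ℂ) (hx : IsNahmSolution A x),
      xi (fun i => hx.ne i) ∈ GF (fieldOf x) ∧
      ∃ n : ℕ, 0 < n ∧ n • xi (fun i => hx.ne i) ∈ relSub (fieldOf x)) ∧
    ∀ (B : Fin 13 → ℚ) (C : ℚ), (∀ τ : ℍ, Summable (nahmTerm A B C (τ : ℂ))) ∧
      ∀ (w : ℝ) (Γ : Subgroup SL(2, ℤ)), Γ.FiniteIndex → ∃ γ ∈ Γ, ∃ τ : ℍ,
        ‖nahmSum A B C (γ • τ)‖ ≠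
          ‖((γ 1 0 : ℤ) : ℂ) * (τ : ℂ) + ((γ 1 1 : ℤ) : ℂ)‖ ^ w * ‖nahmSum A B C τ‖ := by
  refine ⟨A13, All.final.1, All.final.2.1, fun B C => ⟨(All.final.2.2 B C).1, ?_⟩⟩
  intro w Γ hΓ
  by_contra hcon
  push Not at hcon
  exact Y813.NW.nonmod13 B C w ⟨Γ, hΓ, hcon⟩

end Pool.Agent.Results.MP_5c0a0e_nt.NoWeight
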